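import Pool.Agent.Lib.MP_141b7f_lc.Literal

open MeasureTheory

namespace Pool.Agent.Results.MP_141b7f_lc.EveryDimension

/-- For every `n ≥ 2` there is an LCL problem on `ℤⁿ` (labels `Fin k`, radius `t` in the word
metric, allowed patterns `P`) with a Baire measurable labelling on every free Borel action on a
Polish space, and a free Borel action with an invariant Borel probability measure `μ` on which no
`μ`-measurable map is a labelling, not even almost everywhere. -/
theorem result (n : ℕ) (hn : 2 ≤ n) :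
    ∃ (k t : ℕ) (P : Set ({g : Fin n → ℤ // ∑ i, |g i| ≤ (t : ℤ)} → Fin k)),
      (∀ (X : Type) [TopologicalSpace X] [PolishSpace X] [MeasurableSpace X] [BorelSpace X]
        (a : (Fin n → ℤ) → X → X),
        (∀ x, a 0 x = x) → (∀ g h x, a (g + h) x = a g (a h x)) →
        (∀ g, Measurable (a g)) → (∀ g x, a g x = x → g = 0) →
        ∃ f : X → Fin k, (∀ i, BaireMeasurableSet (f ⁻¹' {i})) ∧
          ∀ x, (fun g : {g : Fin n → ℤ // ∑ i, |g i| ≤ (t : ℤ)} => f (a g.1 x)) ∈ P) ∧
      ∃ (X : Type) (_ : MeasurableSpace X) (_ : StandardBorelSpace X)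
        (a : (Fin n → ℤ) → X → X) (μ : Measure X),
        (∀ x, a 0 x = x) ∧ (∀ g h x, a (g + h) x = a g (a h x)) ∧
        (∀ g x, a g x = x → g = 0) ∧ IsProbabilityMeasure μ ∧
        (∀ g, MeasurePreserving (a g) μ μ) ∧
        ¬ ∃ f : X → Fin k, (∀ i, NullMeasurableSet (f ⁻¹' {i}) μ) ∧
          ∀ᵐ x ∂μ, (fun g : {g : Fin n → ℤ // ∑ i, |g i| ≤ (t : ℤ)} => f (a g.1 x)) ∈ P :=
  Pool.Agent.Lib.MP_141b7f_lc.literal n hn

end Pool.Agent.Results.MP_141b7f_lc.EveryDimension
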