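import Pool.Agent.Lib.MP_141b7f_lc.Fiid

open MeasureTheory

namespace Pool.Agent.Results.MP_141b7f_lc.NotFiid

/-- For every `n ≥ 2` there is an LCL problem on `ℤⁿ` (labels `Fin k`, radius `t` in the word
metric, allowed patterns `P`) with a Baire measurable labelling on every free Borel action on a
Polish space and with no factor-of-i.i.d. solution: on no Bernoulli shift is a measurable map a
labelling almost everywhere. -/
theorem result (n : ℕ) (hn : 2 ≤ n) :
    ∃ (k t : ℕ) (P : Set ({g : Fin n → ℤ // ∑ i, |g i| ≤ (t : ℤ)} → Fin k)),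
      (∀ (X : Type) [TopologicalSpace X] [PolishSpace X] [MeasurableSpace X] [BorelSpace X]
        (a : (Fin n → ℤ) → X → X),
        (∀ x, a 0 x = x) → (∀ g h x, a (g + h) x = a g (a h x)) →
        (∀ g, Measurable (a g)) → (∀ g x, a g x = x → g = 0) →
        ∃ f : X → Fin k, (∀ i, BaireMeasurableSet (f ⁻¹' {i})) ∧
          ∀ x, (fun g : {g : Fin n → ℤ // ∑ i, |g i| ≤ (t : ℤ)} => f (a g.1 x)) ∈ P) ∧
      ∀ (E : Type) [MeasurableSpace E] (ν : Measure E) [IsProbabilityMeasure ν],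
        ¬ ∃ f : ((Fin n → ℤ) → E) → Fin k,
          (∀ i, NullMeasurableSet (f ⁻¹' {i}) (Measure.infinitePi fun _ : Fin n → ℤ => ν)) ∧
          ∀ᵐ x ∂(Measure.infinitePi fun _ : Fin n → ℤ => ν),
            (fun g : {g : Fin n → ℤ // ∑ i, |g i| ≤ (t : ℤ)} => f (fun h => x (h + g.1))) ∈ P := by
  obtain ⟨k, t, P, h1, h2⟩ := Pool.Agent.Lib.MP_141b7f_lc.not_fiid n hn
  refine ⟨k, t, P, h1, fun E _ ν _ => ?_⟩
  refine h2 ((Fin n → ℤ) → E) (fun g x h => x (h + g)) _ (fun x => by simp)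
    (fun g h x => by
      funext u
      simp only [add_assoc])
    (fun g => Pool.Agent.Lib.MP_141b7f_lc.shift_mp ν g)
    (Pool.Agent.Lib.MP_141b7f_lc.shift_ergodic ν ?_)
  intro h
  have := congrFun h ⟨0, by omega⟩
  simp at this

end Pool.Agent.Results.MP_141b7f_lc.NotFiid
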